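import Mathlib

set_option autoImplicit false

namespace Pool.Agent.H.MP_ead56d_lc

open List

abbrev S := Fin 7

/-- `u` is `w` with an arbitrary letter inserted before each letter. -/
inductive J : List S → List S → Prop
  | nil : J [] []
  | cons (y x : S) {u w : List S} : J u w → J (y :: x :: u) (x :: w)

inductive LL : List S → Prop
  | nil : LL []
  | tr (n : ℕ) {u w : List S} : LL w → J u w → LL (replicate n 0 ++ 2 :: (u ++ 3 :: replicate n 1))
  | pr {u w v w' : List S} : LL w → J u w → LL w' → J v w' → LL (4 :: (u ++ 5 :: 5 :: v))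

def enc (w : List S) : List S := w.flatMap fun x => [6, x]

@[simp] theorem enc_nil : enc [] = [] := rfl
@[simp] theorem enc_cons (x : S) (w : List S) : enc (x :: w) = 6 :: x :: enc w := rfl

theorem J_enc (w : List S) : J (enc w) w := by
  induction w with
  | nil => exact .nil
  | cons x w ih => exact .cons 6 x ih

theorem J.k1 {u w0 : List S} (h : J u w0) {m n : ℕ} : ∀ w : List S,
    enc w ++ 3 :: replicate m 1 = u ++ 3 :: replicate n 1 → w = w0 ∧ m = n := by
  induction h with
  | nil =>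
    intro w e
    cases w with
    | nil => exact ⟨rfl, by simpa using congrArg length e⟩
    | cons x w => simp at e
  | cons y x _ ih =>
    intro w e
    cases w with
    | nil =>
      simp only [enc_nil, nil_append, cons_append, cons.injEq] at e
      have : (3 : S) ∈ replicate m (1 : S) := by rw [e.2]; simp
      simp at this
    | cons x' w =>
      simp only [enc_cons, cons_append, cons.injEq] at e
      obtain ⟨rfl, h⟩ := ih w e.2.2
      exact ⟨by rw [e.2.1], h⟩

theorem J.k0 {u w0 : List S} (h : J u w0) {t : List S} : ∀ w : List S, enc w ≠ u ++ 5 :: t := by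
  induction h with
  | nil => intro w e; cases w <;> simp at e
  | cons y x _ ih =>
    intro w e
    cases w with
    | nil => simp at e
    | cons x' w => simp only [enc_cons, cons_append, cons.injEq] at e; exact ih w e.2.2

theorem J.k3 {u w0 : List S} (h : J u w0) : ∀ w : List S, enc w = u → w = w0 := by
  induction h with
  | nil => intro w e; cases w <;> simp_all
  | cons y x _ ih =>
    intro w e
    cases w with
    | nil => simp at e
    | cons x' w => simp only [enc_cons, cons.injEq] at e; rw [e.2.1, ih w e.2.2]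

theorem J.k2 {u w v w' : List S} (h : J u w) (h' : J v w') {w2 : List S} : ∀ w1 : List S,
    enc w1 ++ 5 :: 5 :: enc w2 = u ++ 5 :: 5 :: v → w1 = w ∧ w2 = w' := by
  induction h with
  | nil =>
    intro w1 e
    cases w1 with
    | nil => exact ⟨rfl, h'.k3 _ (by simpa using e)⟩
    | cons x w => simp at e
  | cons y x h0 ih =>
    intro w1 e
    cases w1 with
    | nil =>
      simp only [enc_nil, nil_append, cons_append, cons.injEq] at e
      exact absurd e.2.2 (h0.k0 _)
    | cons x' w =>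
      simp only [enc_cons, cons_append, cons.injEq] at e
      obtain ⟨rfl, h⟩ := ih w e.2.2
      exact ⟨by rw [e.2.1], h⟩

theorem rep_inj {t t' : List S} (m : ℕ) : ∀ n : ℕ,
    replicate m (0 : S) ++ 2 :: t = replicate n 0 ++ 2 :: t' → m = n ∧ t = t' := by
  induction m with
  | zero => intro n e; cases n <;> simp_all [replicate_succ]
  | succ m ih =>
    intro n e
    cases n with
    | zero => simp [replicate_succ] at e
    | succ n =>
      simp only [replicate_succ, cons_append, cons.injEq, true_and] at e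
      obtain ⟨rfl, h⟩ := ih n e
      exact ⟨rfl, h⟩

theorem tr_iff (m m' : ℕ) (w : List S) :
    LL (replicate m 0 ++ 2 :: (enc w ++ 3 :: replicate m' 1)) ↔ m = m' ∧ LL w := by
  refine ⟨fun h => ?_, fun ⟨e, h⟩ => e ▸ .tr m h (J_enc w)⟩
  generalize e : replicate m (0 : S) ++ 2 :: (enc w ++ 3 :: replicate m' 1) = x at h
  cases h with
  | nil => simp at e
  | tr n h1 h2 =>
    obtain ⟨rfl, e⟩ := rep_inj _ _ e
    obtain ⟨rfl, rfl⟩ := h2.k1 _ e
    exact ⟨rfl, h1⟩
  | pr => cases m <;> simp [replicate_succ] at e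

theorem pr_iff (w1 w2 : List S) : LL (4 :: (enc w1 ++ 5 :: 5 :: enc w2)) ↔ LL w1 ∧ LL w2 := by
  refine ⟨fun h => ?_, fun ⟨h1, h2⟩ => .pr h1 (J_enc _) h2 (J_enc _)⟩
  generalize e : (4 : S) :: (enc w1 ++ 5 :: 5 :: enc w2) = x at h
  cases h with
  | nil => simp at e
  | tr n => cases n <;> simp [replicate_succ] at e
  | pr h1 h2 h3 h4 =>
    obtain ⟨rfl, rfl⟩ := h2.k2 h4 _ (by simpa using e)
    exact ⟨h1, h3⟩

theorem J.append {u w u' w' : List S} (h : J u w) (h' : J u' w') : J (u ++ u') (w ++ w') := by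
  induction h with
  | nil => exact h'
  | cons y x _ ih => exact .cons y x ih

theorem J.split {w1 w2 : List S} : ∀ {u : List S}, J u (w1 ++ w2) →
    ∃ u1 u2, u = u1 ++ u2 ∧ J u1 w1 ∧ J u2 w2 := by
  induction w1 with
  | nil => intro u h; exact ⟨[], u, rfl, .nil, h⟩
  | cons x w1 ih =>
    intro u h
    cases h with
    | cons y _ h =>
      obtain ⟨u1, u2, rfl, a, b⟩ := ih h
      exact ⟨y :: x :: u1, u2, rfl, .cons y x a, b⟩

theorem J.len {u w : List S} (h : J u w) : u.length = 2 * w.length := by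
  induction h with
  | nil => rfl
  | cons y x _ ih => simp only [length_cons, ih]; omega

abbrev Pat := ℕ → Option S

def MF (π : Pat) : ℕ → List S → Prop
  | _, [] => True
  | o, a :: x => (π o = none ∨ π o = some a) ∧ MF π (o + 1) x

theorem MF_append (π : Pat) (x y : List S) : ∀ o,
    MF π o (x ++ y) ↔ MF π o x ∧ MF π (o + x.length) y := by
  induction x with
  | nil => intro o; simp [MF]
  | cons a x ih => intro o; simp only [cons_append, MF, ih, length_cons, and_assoc]; rw [add_assoc, add_comm 1]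

theorem MF_congr {π π' : Pat} (x : List S) : ∀ o o', (∀ i < x.length, π (o + i) = π' (o' + i)) →
    MF π o x → MF π' o' x := by
  induction x with
  | nil => intro _ _ _ _; trivial
  | cons a x ih =>
    intro o o' h h1
    have h0 := h 0 (by simp)
    refine ⟨by rw [add_zero, add_zero] at h0; rw [← h0]; exact h1.1, ih _ _ (fun i hi => ?_) h1.2⟩
    have := h (i + 1) (by simpa using hi)
    rwa [add_assoc, add_assoc, add_comm 1]

theorem MF_none {π : Pat} (x : List S) : ∀ o, (∀ i < x.length, π (o + i) = none) → MF π o x := by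
  induction x with
  | nil => intro _ _; trivial
  | cons a x ih =>
    intro o h
    refine ⟨Or.inl (h 0 (by simp)), ih _ fun i hi => ?_⟩
    have := h (i + 1) (by simpa using hi)
    rwa [add_assoc, add_comm 1]

def IP (π : Pat) : Pat := fun i => if i % 2 = 0 then none else π (i / 2)

theorem J.mf {u w : List S} (h : J u w) (π : Pat) : ∀ o, MF (IP π) (2 * o) u ↔ MF π o w := by
  induction h with
  | nil => intro o; rfl
  | cons y x _ ih =>
    intro o
    have e1 : IP π (2 * o) = none := by simp [IP]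
    have e2 : IP π (2 * o + 1) = π o := by
      rw [IP, if_neg (by omega), show (2 * o + 1) / 2 = o by omega]
    simp only [MF, e1, e2, true_or, true_and]
    rw [show 2 * o + 1 + 1 = 2 * (o + 1) by ring, ih]

theorem exists_J (k : ℕ) : ∀ u : List S, u.length = 2 * k → ∃ w, J u w := by
  induction k with
  | zero => intro u h; exact ⟨[], by rw [length_eq_zero_iff.1 h]; exact .nil⟩
  | succ k ih =>
    intro u h
    match u, h with
    | y :: x :: u, h =>
      obtain ⟨w, hw⟩ := ih u (by simp at h; omega)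
      exact ⟨_, .cons y x hw⟩

def M (p : Pat × ℕ) (y : List S) : Prop := y.length = p.2 ∧ MF p.1 0 y

def Mat : List (Pat × ℕ) → List S → Prop
  | [], y => y = []
  | p :: ps, y => ∃ y1 y2, y = y1 ++ y2 ∧ M p y1 ∧ Mat ps y2

def I (p : Pat × ℕ) : Pat × ℕ := (IP p.1, 2 * p.2)

theorem J.m {u w : List S} (h : J u w) (p : Pat × ℕ) : M (I p) u ↔ M p w :=
  and_congr (by rw [h.len]; simp [I]) (h.mf p.1 0)

theorem Mat_I (ps : List (Pat × ℕ)) : ∀ u, Mat (ps.map I) u ↔ ∃ w, J u w ∧ Mat ps w := by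
  induction ps with
  | nil =>
    intro u
    exact ⟨fun h => ⟨[], by rw [show u = [] from h]; exact .nil, rfl⟩,
      fun ⟨w, h, e⟩ => by obtain rfl : w = [] := e; cases h; rfl⟩
  | cons p ps ih =>
    intro u
    constructor
    · rintro ⟨y1, y2, rfl, a, b⟩
      obtain ⟨w2, c, d⟩ := (ih _).1 b
      obtain ⟨w1, e⟩ := exists_J p.2 y1 a.1
      exact ⟨_, e.append c, w1, w2, rfl, (e.m p).1 a, d⟩
    · rintro ⟨_, h, w1, w2, rfl, a, b⟩
      obtain ⟨u1, u2, rfl, c, d⟩ := h.split
      exact ⟨u1, u2, rfl, (c.m p).2 a, (ih _).2 ⟨_, d, b⟩⟩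

theorem Mat_append (ps qs : List (Pat × ℕ)) : ∀ y,
    Mat (ps ++ qs) y ↔ ∃ y1 y2, y = y1 ++ y2 ∧ Mat ps y1 ∧ Mat qs y2 := by
  induction ps with
  | nil => intro y; simp [Mat]
  | cons p ps ih =>
    intro y
    simp only [cons_append, Mat, ih]
    constructor
    · rintro ⟨a, _, rfl, h, b, c, rfl, h1, h2⟩
      exact ⟨a ++ b, c, by simp, ⟨a, b, rfl, h, h1⟩, h2⟩
    · rintro ⟨_, c, rfl, ⟨a, b, rfl, h, h1⟩, h2⟩
      exact ⟨a, b ++ c, by simp, h, b, c, rfl, h1, h2⟩

theorem M_full (x : List S) (y : List S) : M (fun i => x[i]?, x.length) y ↔ y = x := by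
  have : ∀ (y : List S) (o : ℕ) (z : List S), y.length = z.length →
      (MF (fun i => z[i - o]?) o y ↔ y = z) := by
    intro y
    induction y with
    | nil => intro o z h; simp [MF, length_eq_zero_iff.1 h.symm]
    | cons a y ih =>
      intro o z h
      cases z with
      | nil => simp at h
      | cons b z =>
        have e : MF (fun i => (b :: z)[i - o]?) (o + 1) y ↔ MF (fun i => z[i - (o + 1)]?) (o + 1) y := by
          constructor <;> refine MF_congr _ _ _ fun i _ => ?_ <;>
            simp [show o + 1 + i - o = i + 1 by omega]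
        simp only [MF, e, ih (o + 1) z (by simpa using h)]
        simp [eq_comm]
  exact ⟨fun h => (this y 0 x h.1).1 h.2, fun h => ⟨by rw [h], (this y 0 x (by rw [h])).2 h⟩⟩

def cp (c : S) (n : ℕ) : Pat × ℕ := (fun _ => some c, n)

theorem M_cp (c : S) (n : ℕ) (y : List S) : M (cp c n) y ↔ y = replicate n c := by
  rw [← M_full]
  refine and_congr_right_iff.2 (fun h => ?_) |>.trans (and_congr_left' (by simp [cp]))
  have h' : y.length = n := h
  constructor <;> refine MF_congr _ _ _ fun i hi => ?_ <;> simp [cp, ← h', hi]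

def Good (j : ℕ) (p : Pat × ℕ) : Prop :=
  (∃ l, 0 < l ∧ l ≤ 2 ^ j ∧ ∀ i, p.1 (i + l) = p.1 i) ∨
    (2 ^ j ∣ p.2 ∧ ∀ i, (i + 1) % 2 ^ j ≠ 0 → p.1 i = none)

theorem good_cp (j : ℕ) (c : S) (n : ℕ) : Good j (cp c n) :=
  Or.inl ⟨1, one_pos, Nat.one_le_two_pow, fun _ => rfl⟩

theorem Good.I {j : ℕ} {p : Pat × ℕ} (h : Good j p) : Good (j + 1) (I p) := by
  rcases h with ⟨l, h0, h1, h⟩ | ⟨h1, h⟩
  · refine Or.inl ⟨2 * l, by omega, by rw [pow_succ]; omega, fun i => ?_⟩
    simp only [MP_ead56d_lc.I, IP]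
    rw [show (i + 2 * l) % 2 = i % 2 by omega, show (i + 2 * l) / 2 = i / 2 + l by omega, h]
  · refine Or.inr ⟨by rw [pow_succ']; exact Nat.mul_dvd_mul_left 2 h1, fun i hi => ?_⟩
    simp only [MP_ead56d_lc.I, IP]
    split_ifs with h2
    · rfl
    · refine h _ fun h3 => hi ?_
      rw [show i + 1 = 2 * (i / 2 + 1) by omega, pow_succ', Nat.mul_mod_mul_left, h3]

theorem decomp (j : ℕ) : ∀ x, LL x → ∃ ps : List (Pat × ℕ), ps.length + 4 ≤ 5 * 2 ^ j ∧
    (∀ p ∈ ps, Good j p) ∧ Mat ps x ∧ ∀ y, Mat ps y → LL y := by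
  induction j with
  | zero =>
    intro x hx
    refine ⟨[(fun i => x[i]?, x.length)], by simp, ?_, ⟨x, [], by simp, (M_full _ _).2 rfl, rfl⟩, ?_⟩
    · intro p _; exact Or.inr ⟨by simp, fun i hi => by simp [Nat.mod_one] at hi⟩
    · rintro _ ⟨y1, _, rfl, h, rfl⟩
      rwa [(M_full _ _).1 h, append_nil]
  | succ j ih =>
    intro x hx
    have hp : 1 ≤ 2 ^ j := Nat.one_le_two_pow
    cases hx with
    | nil => exact ⟨[], by simp; omega, by simp, rfl, fun y h => by rw [show y = [] from h]; exact .nil⟩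
    | @tr n u w h1 h2 =>
      obtain ⟨ps, a1, a2, a3, a4⟩ := ih w h1
      refine ⟨cp 0 n :: cp 2 1 :: (ps.map I ++ [cp 3 1, cp 1 n]), by simp; omega, ?_, ?_, ?_⟩
      · simp only [mem_cons, mem_append, mem_map, not_mem_nil, or_false]
        rintro p (rfl | rfl | ⟨q, hq, rfl⟩ | rfl | rfl) <;>
          first | exact good_cp _ _ _ | exact (a2 q hq).I
      · simp only [Mat, Mat_append, M_cp, Mat_I]
        exact ⟨_, _, rfl, rfl, [2], _, rfl, rfl, u, _, rfl, ⟨w, h2, a3⟩, [3], _, rfl, rfl, _, [],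
          by simp, rfl, rfl⟩
      · simp only [Mat, Mat_append, M_cp, Mat_I]
        rintro _ ⟨_, _, rfl, rfl, _, _, rfl, rfl, u', _, rfl, ⟨w', b1, b2⟩, _, _, rfl, rfl, _, _,
          rfl, rfl, rfl⟩
        simpa using LL.tr n (a4 _ b2) b1
    | @pr u w v w' h1 h2 h3 h4 =>
      obtain ⟨ps, a1, a2, a3, a4⟩ := ih w h1
      obtain ⟨qs, c1, c2, c3, c4⟩ := ih w' h3
      refine ⟨cp 4 1 :: (ps.map I ++ cp 5 2 :: qs.map I), by simp; omega, ?_, ?_, ?_⟩
      · simp only [mem_cons, mem_append, mem_map]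
        rintro p (rfl | ⟨q, hq, rfl⟩ | rfl | ⟨q, hq, rfl⟩) <;>
          first | exact good_cp _ _ _ | exact (a2 q hq).I | exact (c2 q hq).I
      · simp only [Mat, Mat_append, M_cp, Mat_I]
        exact ⟨[4], _, rfl, rfl, u, _, rfl, ⟨w, h2, a3⟩, [5, 5], _, rfl, rfl, w', h4, c3⟩
      · simp only [Mat, Mat_append, M_cp, Mat_I]
        rintro _ ⟨_, _, rfl, rfl, u', _, rfl, ⟨w', b1, b2⟩, _, _, rfl, rfl, w'', b3, b4⟩
        simpa using LL.pr (a4 _ b2) b1 (c4 _ b4) b3

end Pool.Agent.H.MP_ead56d_lc
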