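import Pool.Agent.H.MP_ead56d_lc.A
import Pool.Agent.Lib.helper21.Cuts

set_option autoImplicit false

namespace Pool.Agent.H.MP_ead56d_lc

open List Pool.Agent.Lib.helper21

abbrev Y := Option (Bool × Bool)

def Pal (v : List Y) : Prop := ∃ w : List (Bool × Bool), v = w.map some ++ none :: w.reverse.map some

theorem one_none {y : List Y} {w' : List (Bool × Bool)} (w : List (Bool × Bool)) : ∀ x : List Y,
    x ++ none :: y = w.map some ++ none :: w'.map some → x = w.map some ∧ y = w'.map some := by
  induction w with
  | nil =>
    intro x e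
    cases x with
    | nil => simpa using e
    | cons a x =>
      simp only [cons_append, map_nil, nil_append, cons.injEq] at e
      have : (none : Y) ∈ w'.map some := by rw [← e.2]; simp
      simp at this
  | cons b w ih =>
    intro x e
    cases x with
    | nil => simp at e
    | cons a x =>
      simp only [cons_append, map_cons, cons.injEq] at e
      exact ⟨by rw [e.1, (ih x e.2).1, map_cons], (ih x e.2).2⟩

theorem none_side {A U C : List Y} (h : Pal (A ++ U ++ C)) (hU : none ∉ U) :
    (∃ a b, A = a ++ none :: b) ∨ ∃ a b, C = a ++ none :: b := by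
  obtain ⟨w, e⟩ := h
  have : (none : Y) ∈ A ++ U ++ C := by rw [e]; simp
  simp only [mem_append, hU, or_false] at this
  exact this.imp append_of_mem append_of_mem

theorem rigid {A U U' C : List Y} (h : Pal (A ++ U ++ C)) (h' : Pal (A ++ U' ++ C))
    (hU : none ∉ U) : U = U' := by
  have inj := map_injective_iff.2 (Option.some_injective (Bool × Bool))
  rcases none_side h hU with ⟨a, b, rfl⟩ | ⟨a, b, rfl⟩ <;> obtain ⟨w, e⟩ := h <;>
    obtain ⟨w', e'⟩ := h'
  · obtain ⟨a1, a2⟩ := one_none (y := b ++ U ++ C) (w' := w.reverse) w a (by simpa using e)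
    obtain ⟨a3, a4⟩ := one_none (y := b ++ U' ++ C) (w' := w'.reverse) w' a (by simpa using e')
    obtain rfl := inj (a1.symm.trans a3)
    simpa using a2.trans a4.symm
  · obtain ⟨a1, a2⟩ := one_none (y := b) (w' := w.reverse) w (A ++ U ++ a) (by simpa using e)
    obtain ⟨a3, a4⟩ := one_none (y := b) (w' := w'.reverse) w' (A ++ U' ++ a) (by simpa using e')
    obtain rfl := reverse_injective (inj (a2.symm.trans a4))
    simpa using a1.trans a3.symm

def tm : ℕ → Bool
  | 0 => false
  | n + 1 => xor (tm ((n + 1) / 2)) ((n + 1) % 2 == 1)
decreasing_by omega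

theorem tm_eq (n : ℕ) : tm n = xor (tm (n / 2)) (n % 2 == 1) := by
  cases n with
  | zero => simp
  | succ n => rw [tm]

theorem tm_ne {m : ℕ} (h : m % 2 = 0) : tm (m + 1) = !tm m := by
  rw [tm_eq (m + 1), tm_eq m, show (m + 1) / 2 = m / 2 by omega, h, show (m + 1) % 2 = 1 by omega]
  simp

theorem no_overlap (p : ℕ) : ∀ i, 0 < p → ¬ ∀ k ≤ p, tm (i + k) = tm (i + k + p) := by
  induction p using Nat.strong_induction_on with
  | _ p ih =>
    intro i hp h
    rcases Nat.mod_two_eq_zero_or_one p with h2 | h2
    · refine ih (p / 2) (by omega) (i / 2) (by omega) fun k hk => ?_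
      have := h (2 * k) (by omega)
      rw [tm_eq, tm_eq (i + 2 * k + p), show (i + 2 * k + p) % 2 = (i + 2 * k) % 2 by omega,
        show (i + 2 * k) / 2 = i / 2 + k by omega,
        show (i + 2 * k + p) / 2 = i / 2 + k + p / 2 by omega] at this
      simpa using this
    · have key : ∀ k ≤ p, tm (i + k) = xor (tm i) (k % 2 == 1) := by
        intro k
        induction k with
        | zero => simp
        | succ k ihk =>
          intro hk
          have : tm (i + k + 1) = !tm (i + k) := by
            rcases Nat.mod_two_eq_zero_or_one (i + k) with h3 | h3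
            · exact tm_ne h3
            · rw [h k (by omega), ← tm_ne (by omega), add_assoc, h (k + 1) hk]
              congr 1; omega
          rw [← add_assoc, this, ihk (by omega)]
          rcases Nat.mod_two_eq_zero_or_one k with h3 | h3 <;>
            simp [h3, show (k + 1) % 2 = 1 - k % 2 by omega]
      have h3 := key p le_rfl
      have h4 := h 0 (by omega)
      simp only [add_zero] at h4
      rw [← h4, h2] at h3
      simp at h3

def SF (l : List Y) : Prop := ∀ A U C, l = A ++ U ++ U ++ C → U = []

def w0 (m : ℕ) : List (Bool × Bool) := (range m).map fun i => (tm i, tm (i + 1))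

theorem sf0 (m : ℕ) : SF ((w0 m).map some) := by
  intro A U C e
  by_contra hU
  have hl := congrArg length e
  simp only [w0, length_map, length_range, length_append] at hl
  have key : ∀ k < U.length, (tm (A.length + k), tm (A.length + k + 1)) =
      (tm (A.length + k + U.length), tm (A.length + k + U.length + 1)) := by
    intro k hk
    have e1 := congrArg (·[A.length + k]?) e
    have e2 := congrArg (·[A.length + k + U.length]?) e
    simp only [w0, getElem?_map, append_assoc] at e1 e2
    rw [getElem?_range (by omega), getElem?_append_right (by omega),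
      getElem?_append_left (by omega)] at e1
    rw [getElem?_range (by omega), getElem?_append_right (by omega),
      getElem?_append_right (by omega), getElem?_append_left (by omega)] at e2
    rw [show A.length + k - A.length = k by omega] at e1
    rw [show A.length + k + U.length - A.length - U.length = k by omega, ← e1] at e2
    simpa using e2.symm
  have hp := length_pos_iff.2 hU
  refine no_overlap U.length A.length hp fun k hk => ?_
  rcases k with _ | k
  · exact (Prod.mk.inj (key 0 hp)).1
  · have := (Prod.mk.inj (key k (by omega))).2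
    rwa [add_right_comm _ U.length] at this

theorem SF.rev {l : List Y} (h : SF l) : SF l.reverse := fun A U C e => by
  simpa using h C.reverse U.reverse A.reverse (by rw [← reverse_reverse l, e]; simp)

def v0 (m : ℕ) : List Y := (w0 m).map some ++ none :: (w0 m).reverse.map some

theorem pal0 (m : ℕ) : Pal (v0 m) := ⟨_, rfl⟩

theorem sfv {m : ℕ} {A U C : List Y} (e : v0 m = A ++ U ++ U ++ C) (hU : none ∉ U) : U = [] := by
  rcases none_side (A := A) (U := U ++ U) (C := C) (by rw [← append_assoc, ← e]; exact pal0 m)
    (by simpa using hU) with ⟨a, b, rfl⟩ | ⟨a, b, rfl⟩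
  · have := (one_none (y := b ++ U ++ U ++ C) (w' := (w0 m).reverse) (w0 m) a
      (by simpa [v0] using e.symm)).2
    exact (sf0 m).rev b U C (by rw [this, map_reverse])
  · have := (one_none (y := b) (w' := (w0 m).reverse) (w0 m) (A ++ U ++ U ++ a)
      (by simpa [v0] using e.symm)).1
    exact sf0 m A U a this.symm

theorem comm_sq {m : ℕ} {A U U' C : List Y} (e : v0 m = A ++ (U ++ U') ++ C)
    (hU : none ∉ U ++ U') (h : U ++ U' = U' ++ U) : U = [] ∨ U' = [] := by
  rcases append_eq_append_iff.1 h with ⟨t, rfl, -⟩ | ⟨t, e1, e2⟩
  · exact Or.inl (sfv (A := A) (C := t ++ C) (by simpa using e) (by simp_all))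
  · rw [h, e1] at e
    exact Or.inr (sfv (A := A) (C := t ++ C) (by simpa using e) (by simp_all))

end Pool.Agent.H.MP_ead56d_lc
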