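import Pool.Agent.H.MP_ead56d_lc.B

set_option autoImplicit false

namespace Pool.Agent.H.MP_ead56d_lc

open List Pool.Agent.Lib.helper21

variable {Z σ : Type} (h : Z → List S) (g : Z → List Y) (δ : σ → Z → σ) (m : ℕ)

structure Ctx (q : σ) (A C : List Y) (Φ : List S → Prop) (ζ : List Z) : Prop where
  ok : Φ (ζ.flatMap h)
  out : v0 m = A ++ ζ.flatMap g ++ C
  all : ∀ ζ' : List Z, ζ'.foldl δ q = ζ.foldl δ q → Φ (ζ'.flatMap h) → Pal (A ++ ζ'.flatMap g ++ C)

variable {h g δ m} {q : σ} {A C : List Y} {Φ : List S → Prop}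

theorem Ctx.sub {a ζ b : List Z} (c : Ctx h g δ m q A C Φ (a ++ ζ ++ b)) :
    Ctx h g δ m (a.foldl δ q) (A ++ a.flatMap g) (b.flatMap g ++ C)
      (fun U => Φ (a.flatMap h ++ U ++ b.flatMap h)) ζ :=
  ⟨by simpa using c.ok, by simpa using c.out, fun ζ' e hΦ => by
    simpa using c.all (a ++ ζ' ++ b) (by simp [e]) (by simpa using hΦ)⟩

theorem Ctx.rig {ζ ζ' : List Z} (c : Ctx h g δ m q A C Φ ζ) (hn : none ∉ ζ.flatMap g)
    (e : ζ'.foldl δ q = ζ.foldl δ q) (hΦ : Φ (ζ'.flatMap h)) : ζ.flatMap g = ζ'.flatMap g :=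
  rigid (c.out ▸ pal0 m) (c.all ζ' e hΦ) hn

variable [Finite σ] (hh : ∀ z, (h z).length ≤ 1) (hg : ∀ z, (g z).length ≤ 1)
include hg

theorem Ctx.per {ζ : List Z} (c : Ctx h g δ m q A C Φ ζ) (hn : none ∉ ζ.flatMap g) {l : ℕ}
    (hl : 0 < l) (hs : ∀ a x y b, ζ.flatMap h = a ++ x ++ y ++ b → l ∣ x.length → l ∣ y.length →
      Φ (a ++ y ++ x ++ b)) : (ζ.flatMap g).length < 2 * (Nat.card σ * l) := by
  by_contra hc
  have : NeZero l := ⟨hl.ne'⟩
  obtain ⟨a, x, y, b, rfl, e1, e2, p1, p2⟩ := Cuts.three hg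
    (fun a => (a.foldl δ q, ((a.flatMap h).length : ZMod l))) ζ (by simpa [Nat.card_zmod] using hc)
  simp only [Prod.mk.injEq, foldl_append, flatMap_append, length_append, Nat.cast_add] at e1 e2
  have d1 : l ∣ (x.flatMap h).length := by
    rw [← ZMod.natCast_eq_zero_iff]; simpa using e1.2
  have d2 : l ∣ (y.flatMap h).length := by
    rw [← ZMod.natCast_eq_zero_iff]; have := e2.2; rw [← e1.2] at this; simpa using this
  have e3 := e2.1
  rw [← e1.1] at e3
  have := c.rig hn (ζ' := a ++ y ++ x ++ b) (by simp only [foldl_append]; rw [← e1.1, ← e3, ← e1.1])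
    (by simpa using hs (a.flatMap h) _ _ (b.flatMap h) (by simp) d1 d2)
  simp only [flatMap_append, append_assoc, append_cancel_left_eq] at this
  rw [← append_assoc, ← append_assoc, append_cancel_right_eq] at this
  rcases comm_sq (A := A ++ a.flatMap g) (C := b.flatMap g ++ C) (by simpa using c.out)
    (by intro h; apply hn; simp only [flatMap_append, mem_append] at h ⊢; tauto) this with e | e <;>
    simp [e] at p1 p2

theorem Ctx.short {ζ : List Z} (c : Ctx h g δ m q A C Φ ζ) (hn : none ∉ ζ.flatMap g) {l : ℕ}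
    (hl : 0 < l) (hs : (ζ.flatMap h).length ≤ l) : (ζ.flatMap g).length < 2 * (Nat.card σ * l) := by
  refine c.per hg hn hl fun a x y b e d1 d2 => ?_
  have := c.ok
  rw [e] at this hs
  simp only [length_append] at hs
  by_cases hx : x = []
  · simpa [hx] using this
  by_cases hy : y = []
  · simpa [hy] using this
  have := Nat.le_of_dvd (length_pos_iff.2 hx) d1
  have := Nat.le_of_dvd (length_pos_iff.2 hy) d2
  omega

include hh

theorem Ctx.ghost {γ : List Z} (c : Ctx h g δ m q A C Φ γ) (hn : none ∉ γ.flatMap g)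
    (free : ∀ U : List S, U.length = (γ.flatMap h).length → Φ U)
    (big : 7 * Nat.card σ ^ 3 ≤ (γ.flatMap h).length) {κ : List Z} (cyc : κ.foldl δ q = q)
    (hκ : κ.flatMap g ≠ []) : False := by
  have : Nonempty σ := ⟨q⟩
  have n0 : 0 < Nat.card σ := Nat.card_pos
  generalize hn' : Nat.card σ = n at *
  have n1 : n ≤ n ^ 2 := Nat.le_self_pow two_ne_zero n
  have n2 : n ^ 2 ≤ n ^ 3 := Nat.pow_le_pow_right n0 (by norm_num)
  have b1 := c.per hg hn one_pos fun a x y b e _ _ => free _ (by rw [e]; simp; omega)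
  obtain ⟨z, hz, hz'⟩ : ∃ z ∈ κ, g z ≠ [] := by simpa using hκ
  obtain ⟨k1, k2, rfl⟩ := append_of_mem hz
  obtain ⟨k1', a1, a2⟩ := Cuts.shorten δ q _ k1 le_rfl
  obtain ⟨k2', a3, a4⟩ := Cuts.shorten δ (δ (k1.foldl δ q) z) _ k2 le_rfl
  have c1 : (k1' ++ z :: k2').foldl δ q = q := by
    rw [foldl_append, foldl_cons, a1, a3]; simpa using cyc
  have c2 : ((k1' ++ z :: k2').flatMap h).length ≤ 2 * n :=
    (Cuts.len_le hh _).trans (by simp; omega)
  have c3 : 0 < ((k1' ++ z :: k2').flatMap g).length := by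
    have := length_pos_iff.2 hz'
    simp only [flatMap_append, flatMap_cons, length_append]; omega
  generalize k1' ++ z :: k2' = κ at c1 c2 c3
  obtain ⟨x, d, y, rfl, e, p1, p2⟩ := Cuts.two hh (fun a => a.foldl δ q) γ (by omega)
  simp only [foldl_append, flatMap_append, length_append] at e p2 big
  obtain ⟨x', x1, x2, x3⟩ := Cuts.shorten_mod δ q h p1 x
  obtain ⟨y', y1, y2, y3⟩ := Cuts.shorten_mod δ (x.foldl δ q) h p1 y
  have x4 := Cuts.len_le hh x'
  have y4 := Cuts.len_le hh y'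
  rw [hn'] at *
  have l1 : n * (d.flatMap h).length ≤ n ^ 2 := by rw [sq]; exact Nat.mul_le_mul_left _ (by omega)
  have l2 : (d.flatMap h).length * (2 * n) * (κ.flatMap h).length ≤ 4 * n ^ 3 :=
    (Nat.mul_le_mul (Nat.mul_le_mul_right _ (show _ ≤ n by omega)) c2).trans (by ring_nf; rfl)
  obtain ⟨t, ht⟩ : (d.flatMap h).length ∣ (x.flatMap h).length + (d.flatMap h).length +
      (y.flatMap h).length - ((d.flatMap h).length * (2 * n) * (κ.flatMap h).length +
        (x'.flatMap h).length + (y'.flatMap h).length) := by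
    rw [← Nat.modEq_iff_dvd' (by omega), Nat.ModEq, mul_assoc, add_assoc, Nat.mul_add_mod,
      add_right_comm, Nat.add_mod_right, Nat.add_mod, x2, y2, ← Nat.add_mod]
  have := c.rig hn (ζ' := Cuts.pw κ ((d.flatMap h).length * (2 * n)) ++ x' ++ Cuts.pw d t ++ y')
    (by simp only [foldl_append]; rw [Cuts.pw_fold c1, x1, Cuts.pw_fold e.symm, y1, ← e])
    (free _ (by
      simp only [flatMap_append, length_append, Cuts.pw_len]; rw [mul_comm t]; omega))
  rw [this] at b1
  simp only [flatMap_append, length_append, Cuts.pw_len] at b1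
  have : 1 * (2 * n) * 1 ≤ (d.flatMap h).length * (2 * n) * (κ.flatMap g).length :=
    Nat.mul_le_mul (Nat.mul_le_mul_right _ p1) c3
  omega

theorem Ctx.aligned {π : Pat} {len P : ℕ} (hP : 7 * Nat.card σ ^ 3 < P)
    (sp : ∀ i, (i + 1) % P ≠ 0 → π i = none) (k : ℕ) :
    ∀ (T : Finset σ) (a ζ b : List Z), ζ.length ≤ k → Ctx h g δ m q A C (M (π, len)) (a ++ ζ ++ b) →
      P ∣ (a.flatMap h).length → none ∉ ζ.flatMap g →
      (∀ x y, ζ = x ++ y → P ∣ (x.flatMap h).length → (a ++ x).foldl δ q ∈ T) →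
      (ζ.flatMap g).length < (T.card + 1) * (2 * (Nat.card σ * P)) := by
  classical
  have P0 : 0 < P := by omega
  induction k with
  | zero =>
    intro T a ζ b hk c _ hn _
    obtain rfl := length_eq_zero_iff.1 (Nat.le_zero.1 hk)
    exact (c.sub.short hg hn P0 (by simp)).trans_le (Nat.le_mul_of_pos_left _ (by omega))
  | succ k ih =>
    intro T a ζ b hk c ha hn hT
    by_cases hs : (ζ.flatMap h).length ≤ P
    · exact (c.sub.short hg hn P0 hs).trans_le (Nat.le_mul_of_pos_left _ (by omega))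
    obtain ⟨η, ⟨ρ, rfl⟩, hη⟩ := Cuts.exists_pre hh ζ P (by omega)
    have hne : 0 < η.length := by
      rcases η with _ | _
      · simp at hη; omega
      · simp
    have c' : Ctx h g δ m q A C (M (π, len)) (a ++ η ++ ρ ++ b) := by simpa using c
    have ha' : P ∣ ((a ++ η).flatMap h).length := by
      rw [flatMap_append, length_append, hη]; exact dvd_add ha dvd_rfl
    have hn1 : none ∉ η.flatMap g := fun x => hn (by rw [flatMap_append]; exact mem_append_left _ x)
    have hn2 : none ∉ ρ.flatMap g := fun x => hn (by rw [flatMap_append]; exact mem_append_right _ x)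
    have hT' : ∀ x y, ρ = x ++ y → P ∣ (x.flatMap h).length → (a ++ η ++ x).foldl δ q ∈ T := by
      rintro x y rfl hx
      rw [append_assoc]
      exact hT _ y (by simp) (by rw [flatMap_append, length_append, hη]; exact dvd_add dvd_rfl hx)
    have hk' : ρ.length ≤ k := by simp at hk; omega
    by_cases he : η.flatMap g = []
    · simpa [he] using ih T (a ++ η) ρ b hk' c' ha' hn2 hT'
    have hr := hT [] _ rfl (by simp)
    rw [append_nil] at hr
    have b1 := (show Ctx h g δ m q A C (M (π, len)) (a ++ η ++ (ρ ++ b)) by simpa using c).sub.short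
      hg hn1 P0 hη.le
    have b2 := ih (T.erase (a.foldl δ q)) (a ++ η) ρ b hk' c' ha' hn2 fun x y e hx =>
      Finset.mem_erase.2 ⟨fun e2 => ?_, hT' x y e hx⟩
    · rw [Finset.card_erase_of_mem hr, Nat.sub_add_cancel (Finset.card_pos.2 ⟨_, hr⟩)] at b2
      rw [flatMap_append, length_append, add_mul]; omega
    obtain ⟨γ, ⟨η', rfl⟩, hγ⟩ := Cuts.exists_pre hh η (P - 1) (by omega)
    have c2 := (show Ctx h g δ m q A C (M (π, len)) (a ++ γ ++ (η' ++ ρ ++ b)) by simpa using c).sub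
    refine c2.ghost hh hg (fun x => hn1 (by rw [flatMap_append]; exact mem_append_left _ x))
      (fun U hU => ?_) (by omega) (κ := γ ++ η' ++ x) (by rw [← foldl_append, ← e2]; simp)
      (by rw [flatMap_append]; exact fun x => he (append_eq_nil_iff.1 x).1)
    obtain ⟨o1, o2⟩ := c2.ok
    refine ⟨by simp only [length_append] at o1 ⊢; omega, ?_⟩
    simp only [MF_append, length_append] at o2 ⊢
    refine ⟨⟨o2.1.1, MF_none _ _ fun i hi => sp _ ?_⟩, hU ▸ o2.2⟩
    obtain ⟨t, ht⟩ := ha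
    rw [ht, zero_add, add_assoc, Nat.mul_add_mod, Nat.mod_eq_of_lt (by omega)]
    omega

theorem Ctx.good {j : ℕ} {p : Pat × ℕ} (hP : 7 * Nat.card σ ^ 3 < 2 ^ j) (hp : Good j p)
    {a ζ b : List Z} (c : Ctx h g δ m q A C (M p) (a ++ ζ ++ b)) (hn : none ∉ ζ.flatMap g) :
    (ζ.flatMap g).length < (Nat.card σ + 2) * (2 * (Nat.card σ * 2 ^ j)) := by
  have P0 : 0 < 2 ^ j := by omega
  rcases hp with ⟨l, l0, l1, hl⟩ | ⟨-, sp⟩
  · refine (c.sub.per hg hn l0 fun u x y v e d1 d2 => ?_).trans_le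
      ((Nat.mul_le_mul_left _ (Nat.mul_le_mul_left _ l1)).trans (Nat.le_mul_of_pos_left _ (by omega)))
    have per : ∀ t i, p.1 (i + l * t) = p.1 i := by
      intro t
      induction t with
      | zero => simp
      | succ t ih => intro i; rw [mul_add, mul_one, ← add_assoc, hl, ih]
    obtain ⟨o1, o2⟩ := c.sub.ok
    rw [e] at o1 o2
    refine ⟨by simp only [length_append] at o1 ⊢; omega, ?_⟩
    simp only [MF_append, length_append] at o2 ⊢
    obtain ⟨t1, d1⟩ := d1
    obtain ⟨t2, d2⟩ := d2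
    obtain ⟨⟨r1, ⟨⟨r2, r3⟩, r4⟩, r5⟩, r6⟩ := o2
    refine ⟨⟨r1, ⟨⟨r2, MF_congr _ _ _ (fun i _ => ?_) r4⟩, MF_congr _ _ _ (fun i _ => ?_) r3⟩, ?_⟩, ?_⟩
    · exact (congrArg p.1 (by omega)).trans (per t1 _)
    · exact ((congrArg p.1 (by omega)).trans (per t2 _)).symm
    · rwa [add_right_comm u.length]
    · rwa [add_right_comm u.length]
  · have := Fintype.ofFinite σ
    by_cases hs : (ζ.flatMap h).length ≤ 2 ^ j
    · exact (c.sub.short hg hn P0 hs).trans_le (Nat.le_mul_of_pos_left _ (by omega))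
    have hm := Nat.mod_lt (a.flatMap h).length P0
    obtain ⟨η, ⟨ρ, rfl⟩, hη⟩ := Cuts.exists_pre hh ζ (2 ^ j - (a.flatMap h).length % 2 ^ j) (by omega)
    have b1 := (show Ctx h g δ m q A C (M p) (a ++ η ++ (ρ ++ b)) by simpa using c).sub.short
      hg (fun x => hn (by rw [flatMap_append]; exact mem_append_left _ x)) P0 (by omega)
    have b2 := Ctx.aligned hh hg hP sp _ Finset.univ (a ++ η) ρ b le_rfl (by simpa using c)
      ⟨(a.flatMap h).length / 2 ^ j + 1, by
        have := Nat.div_add_mod (a.flatMap h).length (2 ^ j)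
        rw [flatMap_append, length_append, hη, mul_add]; omega⟩
      (fun x => hn (by rw [flatMap_append]; exact mem_append_right _ x)) (by simp)
    rw [Finset.card_univ, ← Nat.card_eq_fintype_card] at b2
    rw [flatMap_append, length_append, show Nat.card σ + 2 = Nat.card σ + 1 + 1 from rfl, add_mul _ 1]
    omega

theorem Ctx.piece {j : ℕ} {p : Pat × ℕ} (hP : 7 * Nat.card σ ^ 3 < 2 ^ j) (hp : Good j p)
    {ζ : List Z} (c : Ctx h g δ m q A C (M p) ζ) :
    (ζ.flatMap g).length < 2 * ((Nat.card σ + 2) * (2 * (Nat.card σ * 2 ^ j))) := by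
  by_cases hn : none ∈ ζ.flatMap g
  · obtain ⟨U, U', e⟩ := append_of_mem hn
    obtain ⟨a, b, rfl, e1, e2⟩ := Cuts.split hg e
    obtain ⟨b1, b2, rfl, e3, e4⟩ := Cuts.split hg (u := [none]) e2
    have o := c.out
    rw [e] at o
    obtain ⟨o1, o2⟩ := one_none (y := U' ++ C) (w' := (w0 m).reverse) (w0 m) (A ++ U)
      (by simpa [v0] using o.symm)
    have n1 : none ∉ A ++ U := by rw [o1]; simp
    have n2 : none ∉ U' ++ C := by rw [o2]; simp
    have a1 := Ctx.good hh hg hP hp (a := []) (ζ := a) (b := b1 ++ b2) c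
      (by rw [e1]; exact fun x => n1 (mem_append_right _ x))
    have a2 := Ctx.good hh hg hP hp (a := a ++ b1) (ζ := b2) (b := []) (by simpa using c)
      (by rw [e4]; exact fun x => n2 (mem_append_left _ x))
    rw [e, length_append, length_cons]
    rw [e1] at a1; rw [e4] at a2; omega
  · have := Ctx.good hh hg hP hp (a := []) (b := []) (by simpa using c) hn
    omega

theorem Ctx.total {j : ℕ} (hP : 7 * Nat.card σ ^ 3 < 2 ^ j) (ps : List (Pat × ℕ)) :
    (∀ p ∈ ps, Good j p) → ∀ (q : σ) (A : List Y) (ζ : List Z), Ctx h g δ m q A [] (Mat ps) ζ →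
    (ζ.flatMap g).length < (ps.length + 1) * (2 * ((Nat.card σ + 2) * (2 * (Nat.card σ * 2 ^ j)))) := by
  induction ps with
  | nil =>
    intro _ q A ζ c
    have := Ctx.piece hh hg hP (good_cp j 0 0) (q := q) (A := A) (C := []) (ζ := ζ)
      ⟨(M_cp _ _ _).2 c.ok, c.out, fun ζ' e x => c.all ζ' e ((M_cp _ _ _).1 x)⟩
    simpa using this
  | cons p ps ih =>
    intro hp q A ζ c
    obtain ⟨y1, y2, e, o1, o2⟩ := c.ok
    obtain ⟨a, b, rfl, rfl, rfl⟩ := Cuts.split hh e
    have c1 := (show Ctx h g δ m q A [] _ ([] ++ a ++ b) from c).sub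
    have c2 := (show Ctx h g δ m q A [] _ (a ++ b ++ []) by simpa using c).sub
    have b1 := Ctx.piece hh hg hP (hp p (by simp)) ⟨o1, c1.out, fun ζ' e x =>
      c1.all ζ' e ⟨_, _, by simp, x, o2⟩⟩
    have b2 := ih (fun p x => hp p (by simp [x])) _ (A ++ a.flatMap g) b ⟨o2, by simpa using c2.out, fun ζ' e x => by
      simpa using c2.all ζ' e ⟨_, _, by simp, o1, x⟩⟩
    rw [flatMap_append, length_append, length_cons, add_mul _ 1]
    omega

theorem not_image (s : σ) (F : σ → Prop) :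
    ¬ ∀ v, Pal v ↔ ∃ w : List Z, F (w.foldl δ s) ∧ LL (w.flatMap h) ∧ w.flatMap g = v := by
  intro H
  have hP : 7 * Nat.card σ ^ 3 < 2 ^ (7 * Nat.card σ ^ 3) := Nat.lt_two_pow_self
  obtain ⟨j, hP⟩ : ∃ j, 7 * Nat.card σ ^ 3 < 2 ^ j := ⟨_, hP⟩
  let B := 2 * ((Nat.card σ + 2) * (2 * (Nat.card σ * 2 ^ j)))
  obtain ⟨w, a1, a2, a3⟩ := (H _).1 (pal0 (5 * 2 ^ j * B))
  obtain ⟨ps, b1, b2, b3, b4⟩ := decomp j _ a2
  have := Ctx.total hh hg hP ps b2 s [] w (δ := δ) (m := 5 * 2 ^ j * B) ⟨b3, by simp [a3],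
    fun ζ' e x => (H _).2 ⟨ζ', e ▸ a1, b4 _ x, by simp⟩⟩
  rw [a3] at this
  have h2 : (ps.length + 1) * B ≤ 5 * 2 ^ j * B := Nat.mul_le_mul_right _ (by omega)
  simp only [v0, w0, length_append, length_map, length_range] at this
  exact absurd (this.trans_le h2) (by omega)

end Pool.Agent.H.MP_ead56d_lc
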